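import Pool.Agent.H37.UMD.Stmts

/-!
# Ultimate matching, module MEU: measurability and bounds of the noise weight of a step
-/

set_option autoImplicit false

open MeasureTheory ProbabilityTheory Set

namespace Pool.UMD

theorem MEU_ZZ_meas (Λ : ℕ) (Cv : ℝ) : Measurable (ZZ Λ Cv) := by
  unfold ZZ
  refine Finset.measurable_sum _ fun l _ => ?_
  exact (((measurable_const.mul measurable_id).sub measurable_const)).exp

theorem MEU_ZZ_one (Λ : ℕ) (Cv ξ : ℝ) : 1 ≤ ZZ Λ Cv ξ := by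
  unfold ZZ
  have h0 : (0 : ℤ) ∈ Finset.Icc (-(Λ : ℤ)) Λ := by
    rw [Finset.mem_Icc]
    omega
  have h1 := Finset.single_le_sum (f := fun l : ℤ => Real.exp (l * ξ - Cv * (l : ℝ) ^ 2))
    (fun l _ => (Real.exp_pos _).le) h0
  simpa using h1

theorem MEU_ZZ_le (Λ : ℕ) {Cv : ℝ} (hC : 0 ≤ Cv) {ξ B : ℝ} (h : |ξ| ≤ B) :
    ZZ Λ Cv ξ ≤ ∑ l ∈ Finset.Icc (-(Λ : ℤ)) Λ, Real.exp (|(l : ℝ)| * B) := by
  unfold ZZ
  refine Finset.sum_le_sum fun l _ => Real.exp_le_exp.mpr ?_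
  have h1 : (l : ℝ) * ξ ≤ |(l : ℝ)| * B := by
    calc (l : ℝ) * ξ ≤ |(l : ℝ) * ξ| := le_abs_self _
      _ = |(l : ℝ)| * |ξ| := abs_mul _ _
      _ ≤ _ := mul_le_mul_of_nonneg_left h (abs_nonneg _)
  have h2 : 0 ≤ Cv * (l : ℝ) ^ 2 := mul_nonneg hC (sq_nonneg _)
  linarith

theorem sMeu (hMmu : SMmu) (hMst : SMst) : SMeu := by
  intro W M hW A e Λ Cv hCv
  have hM0 : 0 ≤ M := (abs_nonneg _).trans (hW.2 0)
  obtain ⟨m1, m2, m3⟩ := hMmu W M hW (A.con e)
  have hline : Measurable (fun q : (ℝ × ℝ) × ℝ => q.1 + q.2 • A.stp e) := by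
    have : Continuous (fun q : (ℝ × ℝ) × ℝ => q.1 + q.2 • A.stp e) :=
      continuous_fst.add (continuous_snd.smul continuous_const)
    exact this.measurable
  have hu : Measurable (Function.uncurry fun (a : ℝ × ℝ) (t : ℝ) =>
      mu W (a + t • A.stp e) (A.con e)) := m1.1.comp hline
  obtain ⟨s1, s2⟩ := hMst (fun a t => mu W (a + t • A.stp e) (A.con e)) M hu
    (fun a t => m1.2 _)
  have x0 : Measurable (fun q : (ℝ × ℝ) × ℝ => xi0 W q.1 A e q.2) := by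
    unfold xi0
    exact measurable_const.mul s1
  have x1 : Measurable (fun q : (ℝ × ℝ) × ℝ => xi1 W q.1 A e q.2) := by
    unfold xi1
    exact measurable_const.mul (m2.1.comp hline)
  have x2 : Measurable (fun q : (ℝ × ℝ) × ℝ => xi2 W q.1 A e q.2) := by
    unfold xi2
    exact measurable_const.mul (m3.1.comp hline)
  have hB0 : 0 ≤ √A.det := Real.sqrt_nonneg _
  have b0 : ∀ a g, |xi0 W a A e g| ≤ √A.det * (3 * M) := by
    intro a g
    unfold xi0
    rw [abs_mul, abs_of_nonneg hB0]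
    exact mul_le_mul_of_nonneg_left (s2 a g) hB0
  have b1 : ∀ a g, |xi1 W a A e g| ≤ √A.det * (3 * M) := by
    intro a g
    unfold xi1
    rw [abs_mul, abs_of_nonneg hB0]
    refine mul_le_mul_of_nonneg_left ((m2.2 _).trans ?_) hB0
    linarith
  have b2 : ∀ a g, |xi2 W a A e g| ≤ √A.det * (3 * M) := by
    intro a g
    unfold xi2
    rw [abs_mul, abs_of_nonneg hB0]
    refine mul_le_mul_of_nonneg_left ((m3.2 _).trans ?_) hB0
    linarith
  constructor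
  · unfold eU
    exact (((MEU_ZZ_meas Λ Cv).comp x0).mul ((MEU_ZZ_meas Λ Cv).comp x1)).mul
      ((MEU_ZZ_meas Λ Cv).comp x2)
  · set B : ℝ := √A.det * (3 * M) with hB
    refine ⟨(∑ l ∈ Finset.Icc (-(Λ : ℤ)) Λ, Real.exp (|(l : ℝ)| * B)) ^ 3, fun a g => ?_⟩
    have o0 := MEU_ZZ_one Λ Cv (xi0 W a A e g)
    have o1 := MEU_ZZ_one Λ Cv (xi1 W a A e g)
    have o2 := MEU_ZZ_one Λ Cv (xi2 W a A e g)
    have u0 := MEU_ZZ_le Λ hCv (b0 a g)
    have u1 := MEU_ZZ_le Λ hCv (b1 a g)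
    have u2 := MEU_ZZ_le Λ hCv (b2 a g)
    unfold eU
    constructor
    · exact one_le_mul_of_one_le_of_one_le (one_le_mul_of_one_le_of_one_le o0 o1) o2
    · rw [pow_succ, pow_two]
      have hS : 0 ≤ ∑ l ∈ Finset.Icc (-(Λ : ℤ)) Λ, Real.exp (|(l : ℝ)| * B) :=
        Finset.sum_nonneg fun l _ => (Real.exp_pos _).le
      exact mul_le_mul (mul_le_mul u0 u1 (by linarith) hS) u2 (by linarith) (by positivity)

end Pool.UMD
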