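import Pool.Agent.H37.UMD.Stmts2

/-!
# Ultimate matching, module MRK: Markov's inequality for the partition function
-/

set_option autoImplicit false

open MeasureTheory ProbabilityTheory Finset

namespace Pool.UMD

theorem MRK_markov {n m : ℕ} {E : (Fin n → Fin m × Fin m) → (Fin n → Fin m × Fin m) → Prop}
    {Φ : (Fin n → Fin m × Fin m) → (Fin n → Fin m × Fin m) → ℝ} (h0 : ∀ cx cy, 0 ≤ Φ cx cy)
    (h1 : ∀ cx cy, E cx cy → 1 ≤ Φ cx cy) : Pool.UMC.frac n m E ≤ av n m Φ := by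
  classical
  unfold Pool.UMC.frac av
  refine div_le_div_of_nonneg_right ?_ (by positivity)
  rw [← sum_product', univ_product_univ, Finset.card_filter, Nat.cast_sum]
  refine sum_le_sum fun w _ => ?_
  by_cases h : E w.1 w.2
  · simp only [if_pos h, Nat.cast_one]
    exact h1 _ _ h
  · simp only [if_neg h, Nat.cast_zero]
    exact h0 _ _

theorem MRK_vol (m : ℕ) : (volume : Measure (ℝ × ℝ)) (Box m) ≠ ⊤ ∧
    (volume : Measure (ℝ × ℝ)).real (Box m) = 4 * (m : ℝ) ^ 2 := by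
  have h1 : (volume : Measure (ℝ × ℝ)) (Box m) =
      ENNReal.ofReal (2 * m) * ENNReal.ofReal (2 * m) := by
    unfold Box
    rw [Measure.volume_eq_prod, Measure.prod_prod, Real.volume_Ico, sub_zero]
  refine ⟨?_, ?_⟩
  · rw [h1]
    exact ENNReal.mul_ne_top ENNReal.ofReal_ne_top ENNReal.ofReal_ne_top
  · rw [Measure.real, h1, ENNReal.toReal_mul, ENNReal.toReal_ofReal (by positivity)]
    ring

theorem MRK_A0 (k : ℕ) : (A0 (2 * k)).det = 2 ^ (2 * k) ∧
    ∀ z, nm ((A0 (2 * k)).ap z) ≤ 2 * ((2 ^ k : ℕ) : ℝ) * nm z := by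
  have h1 : √((2:ℝ) ^ (2 * k)) = 2 ^ k := by
    rw [show (2:ℝ) ^ (2 * k) = (2 ^ k) ^ 2 by rw [← pow_mul]; congr 1; ring]
    exact Real.sqrt_sq (by positivity)
  constructor
  · unfold A0 Mat.det
    simp only [h1]
    ring
  · intro z
    unfold A0 Mat.ap nm
    simp only [h1]
    have h2 : ((2:ℝ) ^ k * z.1 + 0 * z.2) ^ 2 + (0 * z.1 + 2 ^ k * z.2) ^ 2 =
        (2 ^ k) ^ 2 * (z.1 ^ 2 + z.2 ^ 2) := by ring
    rw [h2, Real.sqrt_mul (by positivity), Real.sqrt_sq (by positivity)]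
    push_cast
    have h3 : 0 ≤ √(z.1 ^ 2 + z.2 ^ 2) := Real.sqrt_nonneg _
    have h4 : (0:ℝ) < 2 ^ k := by positivity
    nlinarith [mul_nonneg h4.le h3]

theorem MRK_cnt {n m : ℕ} (c : Fin n → Fin m × Fin m) (i j : ℕ) :
    (Pool.UMC.cnt c i j : ℝ) ≤ n := by
  have h1 : Pool.UMC.cnt c i j ≤ n := by
    unfold Pool.UMC.cnt
    refine (card_filter_le _ _).trans ?_
    rw [card_univ, Fintype.card_fin]
  exact_mod_cast h1

theorem sMrk (hEzk : SEzk) (hMzk : SMzk) (hFol : SFol) : SMrk := by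
  intro D hD hDu
  obtain ⟨Cκ, hCκ, hE⟩ := hEzk
  have hcard : (1:ℝ) ≤ D.card := by exact_mod_cast hD.card_pos
  set q : ℝ := 729 * (D.card : ℝ) with hq
  have hq1 : 1 ≤ q := by linarith
  have hq0 : 0 < q := by linarith
  have hlog : 0 ≤ Real.log q := Real.log_nonneg hq1
  refine ⟨Cκ, Real.log q + 1, hCκ, by linarith, ?_⟩
  intro n k K Λ hK hK1 hΛ hkK
  set m : ℕ := 2 ^ k with hm
  have hm1 : 1 ≤ m := Nat.one_le_two_pow
  have hmR : (0:ℝ) < m := by exact_mod_cast hm1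
  have hm2 : ((m : ℕ) : ℝ) ^ 2 = 4 ^ k := by
    rw [hm]
    push_cast
    rw [← pow_mul, mul_comm, pow_mul]
    norm_num
  have hK0 : 0 < K := by linarith
  have hsK : 0 < √K := Real.sqrt_pos.mpr hK0
  have hBd : ∀ cx cy : Fin n → Fin m × Fin m, Bd (Wf m K (wc cx cy)) (2 * n / √K) := by
    intro cx cy
    constructor
    · have h1 := ((hFol m hm1).2.2 (fun i j => wc cx cy i j / √K)).1
      exact h1
    · intro x
      unfold Wf wc
      rw [abs_div, abs_of_pos hsK]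
      refine div_le_div_of_nonneg_right ?_ hsK.le
      have h1 := MRK_cnt cx (fo m ⌊x.1⌋) (fo m ⌊x.2⌋)
      have h2 := MRK_cnt cy (fo m ⌊x.1⌋) (fo m ⌊x.2⌋)
      have h3 : (0:ℝ) ≤ Pool.UMC.cnt cx (fo m ⌊x.1⌋) (fo m ⌊x.2⌋) := Nat.cast_nonneg _
      have h4 : (0:ℝ) ≤ Pool.UMC.cnt cy (fo m ⌊x.1⌋) (fo m ⌊x.2⌋) := Nat.cast_nonneg _
      rw [abs_le]
      constructor <;> linarith
  let Z : (Fin n → Fin m × Fin m) → (Fin n → Fin m × Fin m) → ℝ × ℝ → ℝ := fun cx cy a =>
    Zk D Λ (72 * Cκ ^ 2 + 1) (Wf m K (wc cx cy)) (2 * k) a (A0 (2 * k))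
  have hZ : ∀ cx cy, Measurable (Z cx cy) ∧ ∃ C : ℝ, ∀ a, 1 ≤ Z cx cy a ∧ Z cx cy a ≤ C :=
    fun cx cy => hMzk _ _ (hBd cx cy) D hD Λ (72 * Cκ ^ 2 + 1) (by positivity) (2 * k)
      (A0 (2 * k))
  obtain ⟨hvol, hvolr⟩ := MRK_vol m
  haveI : IsFiniteMeasure ((volume : Measure (ℝ × ℝ)).restrict (Box m)) :=
    ⟨by rw [Measure.restrict_apply_univ]; exact lt_top_iff_ne_top.mpr hvol⟩
  have hint : ∀ cx cy, IntegrableOn (Z cx cy) (Box m) := by
    intro cx cy
    obtain ⟨h1, C, hC⟩ := hZ cx cy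
    refine Integrable.of_bound (C := C) h1.aestronglyMeasurable
      (Filter.Eventually.of_forall fun a => ?_)
    rw [Real.norm_eq_abs, abs_of_nonneg (by linarith [(hC a).1])]
    exact (hC a).2
  -- the mean
  have hmean : av n m (fun cx cy => ∫ a in Box m, Z cx cy a) ≤ q ^ (2 * k) * (4 * (m : ℝ) ^ 2) := by
    have h1 : av n m (fun cx cy => ∫ a in Box m, Z cx cy a) =
        ∫ a in Box m, av n m (fun cx cy => Z cx cy a) := by
      unfold av
      rw [integral_div]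
      congr 1
      rw [integral_finsetSum _ fun cx _ => integrable_finsetSum _ fun cy _ => hint cx cy]
      refine sum_congr rfl fun cx _ => ?_
      rw [integral_finsetSum _ fun cy _ => hint cx cy]
    rw [h1]
    have h2 : ∀ a, av n m (fun cx cy => Z cx cy a) ≤ q ^ (2 * k) := by
      intro a
      exact hE D hD hDu n m K Λ (2 * k) a (A0 (2 * k)) hm1 (by rw [hm2]; exact hK) hK0 hΛ
        (MRK_A0 k).1 (MRK_A0 k).2
    have h3 : IntegrableOn (fun a => av n m (fun cx cy => Z cx cy a)) (Box m) := by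
      unfold av
      exact (integrable_finsetSum _ fun cx _ => integrable_finsetSum _ fun cy _ =>
        hint cx cy).div_const _
    calc ∫ a in Box m, av n m (fun cx cy => Z cx cy a) ≤ ∫ _a in Box m, q ^ (2 * k) :=
          integral_mono h3 (integrable_const _) h2
      _ = q ^ (2 * k) * (4 * (m : ℝ) ^ 2) := by
          rw [setIntegral_const, hvolr, smul_eq_mul, mul_comm]
  have hden : 0 < 4 * (m : ℝ) ^ 2 * Real.exp ((Real.log q + 1) * K) := by positivity
  have hmark := MRK_markov (n := n) (m := m)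
    (E := fun cx cy => ¬ ∫ a in Box m, Z cx cy a ≤
      4 * ((m : ℕ) : ℝ) ^ 2 * Real.exp ((Real.log q + 1) * K))
    (Φ := fun cx cy => (4 * (m : ℝ) ^ 2 * Real.exp ((Real.log q + 1) * K))⁻¹ *
      ∫ a in Box m, Z cx cy a)
    (fun cx cy => by
      obtain ⟨-, C, hC⟩ := hZ cx cy
      have : 0 ≤ ∫ a in Box m, Z cx cy a := integral_nonneg fun a => by
        have := (hC a).1
        simp only [Pi.zero_apply]
        linarith
      positivity)
    (fun cx cy h => by
      rw [not_le] at h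
      rw [inv_mul_eq_div, one_le_div hden]
      exact h.le)
  refine hmark.trans ?_
  have h1 : av n m (fun cx cy => (4 * (m : ℝ) ^ 2 * Real.exp ((Real.log q + 1) * K))⁻¹ *
      ∫ a in Box m, Z cx cy a) = (4 * (m : ℝ) ^ 2 * Real.exp ((Real.log q + 1) * K))⁻¹ *
        av n m (fun cx cy => ∫ a in Box m, Z cx cy a) := by
    unfold av
    rw [← mul_div_assoc]
    congr 1
    simp only [mul_sum]
  rw [h1, inv_mul_eq_div, div_le_iff₀ hden]
  refine hmean.trans ?_
  have h2 : q ^ (2 * k) ≤ Real.exp (Real.log q * K) := by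
    have h3 : q ^ (2 * k) = Real.exp (Real.log q * (2 * k : ℝ)) := by
      have : q ^ (2 * k) = q ^ ((2 * k : ℕ) : ℝ) := (Real.rpow_natCast _ _).symm
      rw [this, Real.rpow_def_of_pos hq0]
      push_cast
      rfl
    rw [h3]
    exact Real.exp_le_exp.mpr (mul_le_mul_of_nonneg_left hkK hlog)
  have h4 : Real.exp (-K) * (4 * (m : ℝ) ^ 2 * Real.exp ((Real.log q + 1) * K)) =
      Real.exp (Real.log q * K) * (4 * (m : ℝ) ^ 2) := by
    have : Real.exp (-K) * Real.exp ((Real.log q + 1) * K) = Real.exp (Real.log q * K) := by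
      rw [← Real.exp_add]
      congr 1
      ring
    calc _ = (Real.exp (-K) * Real.exp ((Real.log q + 1) * K)) * (4 * (m : ℝ) ^ 2) := by ring
      _ = _ := by rw [this]
  rw [h4]
  exact mul_le_mul_of_nonneg_right h2 (by positivity)

end Pool.UMD
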