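import Pool.Agent.H37.UMD.Stmts

/-!
# Ultimate matching, module MST: the Stein kernel is jointly measurable and bounded
-/

set_option autoImplicit false

open MeasureTheory ProbabilityTheory Set

namespace Pool.UMD

theorem MST_half : ∫ x in Ioi (0:ℝ), Real.exp (-(1 / 2 : ℝ) * x ^ 2) ≤ 3 / 2 := by
  rw [integral_gaussian_Ioi]
  have h1 : Real.pi / (1 / 2) = 2 * Real.pi := by ring
  rw [h1]
  have h2 : √(2 * Real.pi) ≤ 3 := by
    rw [Real.sqrt_le_left (by norm_num)]
    have := Real.pi_lt_d2
    norm_num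
    linarith
  linarith

theorem MST_int : IntegrableOn (fun x : ℝ => Real.exp (-(1 / 2 : ℝ) * x ^ 2)) (Ioi 0) :=
  (integrable_exp_neg_mul_sq (by norm_num : (0:ℝ) < 1 / 2)).integrableOn

theorem MST_pdf (t : ℝ) : gaussianPDFReal 0 1 t = (√(2 * Real.pi))⁻¹ * Real.exp (-(1 / 2 : ℝ) * t ^ 2) := by
  unfold gaussianPDFReal
  simp only [NNReal.coe_one, mul_one, sub_zero]
  congr 2
  ring

theorem MST_real (s : Set ℝ) : g1.real s = ∫ x in s, gaussianPDFReal 0 1 x := by
  rw [Measure.real, gaussianReal_apply_eq_integral 0 one_ne_zero, ENNReal.toReal_ofReal]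
  exact integral_nonneg fun x => gaussianPDFReal_nonneg _ _ _

/-- Mills' inequality -/
theorem MST_mills {g : ℝ} (hg : 0 ≤ g) : g1.real (Ioi g) ≤ 3 / 2 * gaussianPDFReal 0 1 g := by
  rw [MST_real]
  have h1 : ∫ x in Ioi g, Real.exp (-(1 / 2 : ℝ) * (x - g) ^ 2) =
      ∫ x in Ioi (0:ℝ), Real.exp (-(1 / 2 : ℝ) * x ^ 2) := by
    rw [← integral_indicator measurableSet_Ioi, ← integral_indicator measurableSet_Ioi]
    refine Eq.trans ?_ (integral_sub_right_eq_self
      ((Ioi (0:ℝ)).indicator fun x => Real.exp (-(1 / 2 : ℝ) * x ^ 2)) g)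
    congr 1
    ext x
    by_cases hx : g < x
    · rw [indicator_of_mem (mem_Ioi.mpr hx), indicator_of_mem (mem_Ioi.mpr (sub_pos.mpr hx))]
    · rw [indicator_of_notMem (by simpa using hx), indicator_of_notMem (by simpa using hx)]
  have hi : IntegrableOn (fun x : ℝ => Real.exp (-(1 / 2 : ℝ) * (x - g) ^ 2)) (Ioi g) :=
    ((integrable_exp_neg_mul_sq (by norm_num : (0:ℝ) < 1 / 2)).comp_sub_right g).integrableOn
  calc ∫ x in Ioi g, gaussianPDFReal 0 1 x
      ≤ ∫ x in Ioi g, gaussianPDFReal 0 1 g * Real.exp (-(1 / 2 : ℝ) * (x - g) ^ 2) := by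
        refine setIntegral_mono_on (integrable_gaussianPDFReal 0 1).integrableOn
          (hi.const_mul _) measurableSet_Ioi fun x hx => ?_
        have hx' : g < x := hx
        rw [MST_pdf, MST_pdf, mul_assoc, ← Real.exp_add]
        refine mul_le_mul_of_nonneg_left (Real.exp_le_exp.mpr ?_) (by positivity)
        nlinarith [mul_nonneg hg (sub_pos.mpr hx').le]
    _ = gaussianPDFReal 0 1 g * ∫ x in Ioi (0:ℝ), Real.exp (-(1 / 2 : ℝ) * x ^ 2) := by
        rw [integral_const_mul, h1]
    _ ≤ gaussianPDFReal 0 1 g * (3 / 2) :=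
        mul_le_mul_of_nonneg_left MST_half (gaussianPDFReal_nonneg _ _ _)
    _ = _ := by ring

theorem MST_mills' {g : ℝ} (hg : g ≤ 0) : g1.real (Iio g) ≤ 3 / 2 * gaussianPDFReal 0 1 g := by
  rw [MST_real]
  have h1 : ∫ x in Iio g, Real.exp (-(1 / 2 : ℝ) * (g - x) ^ 2) =
      ∫ x in Ioi (0:ℝ), Real.exp (-(1 / 2 : ℝ) * x ^ 2) := by
    rw [← integral_indicator measurableSet_Iio, ← integral_indicator measurableSet_Ioi]
    refine Eq.trans ?_ (integral_sub_left_eq_self
      ((Ioi (0:ℝ)).indicator fun x => Real.exp (-(1 / 2 : ℝ) * x ^ 2)) volume g)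
    congr 1
    ext x
    by_cases hx : x < g
    · rw [indicator_of_mem (mem_Iio.mpr hx), indicator_of_mem (mem_Ioi.mpr (sub_pos.mpr hx))]
    · rw [indicator_of_notMem (by simpa using hx), indicator_of_notMem (by simpa using hx)]
  have hi : IntegrableOn (fun x : ℝ => Real.exp (-(1 / 2 : ℝ) * (g - x) ^ 2)) (Iio g) :=
    ((integrable_exp_neg_mul_sq (by norm_num : (0:ℝ) < 1 / 2)).comp_sub_left g).integrableOn
  calc ∫ x in Iio g, gaussianPDFReal 0 1 x
      ≤ ∫ x in Iio g, gaussianPDFReal 0 1 g * Real.exp (-(1 / 2 : ℝ) * (g - x) ^ 2) := by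
        refine setIntegral_mono_on (integrable_gaussianPDFReal 0 1).integrableOn
          (hi.const_mul _) measurableSet_Iio fun x hx => ?_
        have hx' : x < g := hx
        rw [MST_pdf, MST_pdf, mul_assoc, ← Real.exp_add]
        refine mul_le_mul_of_nonneg_left (Real.exp_le_exp.mpr ?_) (by positivity)
        nlinarith [mul_nonneg (neg_nonneg.mpr hg) (sub_pos.mpr hx').le]
    _ = gaussianPDFReal 0 1 g * ∫ x in Ioi (0:ℝ), Real.exp (-(1 / 2 : ℝ) * x ^ 2) := by
        rw [integral_const_mul, h1]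
    _ ≤ gaussianPDFReal 0 1 g * (3 / 2) :=
        mul_le_mul_of_nonneg_left MST_half (gaussianPDFReal_nonneg _ _ _)
    _ = _ := by ring

theorem sMst : SMst := by
  intro u M hu hM
  have hm : Measurable (fun a : ℝ × ℝ => ∫ s, u a s ∂g1) :=
    (hu.stronglyMeasurable.integral_prod_right (ν := g1)).measurable
  have hpdf : Measurable (fun q : (ℝ × ℝ) × ℝ => gaussianPDFReal 0 1 q.2) :=
    (measurable_gaussianPDFReal 0 1).comp measurable_snd
  have hint : Measurable (fun p : ((ℝ × ℝ) × ℝ) × ℝ => u p.1.1 p.2 - ∫ s, u p.1.1 s ∂g1) := by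
    refine Measurable.sub ?_ (hm.comp (measurable_fst.comp measurable_fst))
    exact hu.comp ((measurable_fst.comp measurable_fst).prodMk measurable_snd)
  constructor
  · unfold stk
    refine Measurable.ite (measurableSet_le measurable_const measurable_snd) ?_ ?_
    · refine Measurable.div ?_ hpdf
      have h1 : Measurable (Function.uncurry fun (q : (ℝ × ℝ) × ℝ) (t : ℝ) =>
          (Ioi q.2).indicator (fun t => u q.1 t - ∫ s, u q.1 s ∂g1) t) := by
        have h2 : (Function.uncurry fun (q : (ℝ × ℝ) × ℝ) (t : ℝ) =>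
            (Ioi q.2).indicator (fun t => u q.1 t - ∫ s, u q.1 s ∂g1) t) =
            fun p => if p.1.2 < p.2 then u p.1.1 p.2 - ∫ s, u p.1.1 s ∂g1 else 0 := by
          ext p
          simp only [Function.uncurry, indicator_apply, mem_Ioi]
        rw [h2]
        exact Measurable.ite (measurableSet_lt (measurable_snd.comp measurable_fst)
          measurable_snd) hint measurable_const
      have h3 := (h1.stronglyMeasurable.integral_prod_right (ν := g1)).measurable
      simp only [integral_indicator measurableSet_Ioi] at h3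
      exact h3
    · refine Measurable.neg (Measurable.div ?_ hpdf)
      have h1 : Measurable (Function.uncurry fun (q : (ℝ × ℝ) × ℝ) (t : ℝ) =>
          (Iio q.2).indicator (fun t => u q.1 t - ∫ s, u q.1 s ∂g1) t) := by
        have h2 : (Function.uncurry fun (q : (ℝ × ℝ) × ℝ) (t : ℝ) =>
            (Iio q.2).indicator (fun t => u q.1 t - ∫ s, u q.1 s ∂g1) t) =
            fun p => if p.2 < p.1.2 then u p.1.1 p.2 - ∫ s, u p.1.1 s ∂g1 else 0 := by
          ext p
          simp only [Function.uncurry, indicator_apply, mem_Iio]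
        rw [h2]
        exact Measurable.ite (measurableSet_lt measurable_snd
          (measurable_snd.comp measurable_fst)) hint measurable_const
      have h3 := (h1.stronglyMeasurable.integral_prod_right (ν := g1)).measurable
      simp only [integral_indicator measurableSet_Iio] at h3
      exact h3
  · intro a g
    have hM0 : 0 ≤ M := (abs_nonneg _).trans (hM a 0)
    have hmean : |∫ s, u a s ∂g1| ≤ M := by
      have h1 := norm_integral_le_of_norm_le_const (μ := g1) (f := u a) (C := M)
        (Filter.Eventually.of_forall fun s => by rw [Real.norm_eq_abs]; exact hM a s)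
      rw [Real.norm_eq_abs, probReal_univ, mul_one] at h1
      exact h1
    have hb : ∀ t, ‖u a t - ∫ s, u a s ∂g1‖ ≤ 2 * M := by
      intro t
      have h1 := abs_sub (u a t) (∫ s, u a s ∂g1)
      rw [Real.norm_eq_abs]
      have h2 := hM a t
      linarith
    have hp : 0 < gaussianPDFReal 0 1 g := gaussianPDFReal_pos _ _ _ one_ne_zero
    unfold stk
    split_ifs with h
    · rw [abs_div, abs_of_pos hp, div_le_iff₀ hp]
      have h1 := norm_setIntegral_le_of_norm_le_const (μ := g1) (s := Ioi g)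
        (f := fun t => u a t - ∫ s, u a s ∂g1) (C := 2 * M) (measure_lt_top _ _) (fun t _ => hb t)
      rw [Real.norm_eq_abs] at h1
      refine h1.trans ?_
      have h2 := mul_le_mul_of_nonneg_left (MST_mills h) (by linarith : 0 ≤ 2 * M)
      linarith
    · rw [abs_neg, abs_div, abs_of_pos hp, div_le_iff₀ hp]
      have h1 := norm_setIntegral_le_of_norm_le_const (μ := g1) (s := Iio g)
        (f := fun t => u a t - ∫ s, u a s ∂g1) (C := 2 * M) (measure_lt_top _ _) (fun t _ => hb t)
      rw [Real.norm_eq_abs] at h1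
      refine h1.trans ?_
      have h2 := mul_le_mul_of_nonneg_left (MST_mills' (not_le.mp h).le) (by linarith : 0 ≤ 2 * M)
      linarith

end Pool.UMD
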