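import Pool.Agent.H37.UMD.Stmts2

/-!
# Ultimate matching, module SUP: crude bound of the counts
-/

set_option autoImplicit false

open MeasureTheory ProbabilityTheory Finset

namespace Pool.UMD

theorem SUP_markov {n m : ℕ} {E : (Fin n → Fin m × Fin m) → (Fin n → Fin m × Fin m) → Prop}
    {Φ : (Fin n → Fin m × Fin m) → (Fin n → Fin m × Fin m) → ℝ} (h0 : ∀ cx cy, 0 ≤ Φ cx cy)
    (h1 : ∀ cx cy, E cx cy → 1 ≤ Φ cx cy) : Pool.UMC.frac n m E ≤ av n m Φ := by
  classical
  unfold Pool.UMC.frac av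
  refine div_le_div_of_nonneg_right ?_ (by positivity)
  rw [← sum_product', univ_product_univ, Finset.card_filter, Nat.cast_sum]
  refine sum_le_sum fun w _ => ?_
  by_cases h : E w.1 w.2
  · simp only [if_pos h, Nat.cast_one]
    exact h1 _ _ h
  · simp only [if_neg h, Nat.cast_zero]
    exact h0 _ _

theorem SUP_av_add {n m : ℕ} (Φ Ψ : (Fin n → Fin m × Fin m) → (Fin n → Fin m × Fin m) → ℝ) :
    av n m (fun cx cy => Φ cx cy + Ψ cx cy) = av n m Φ + av n m Ψ := by
  unfold av
  rw [← add_div]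
  congr 1
  simp only [sum_add_distrib]

theorem SUP_av_sum {n m : ℕ} {ι : Type*} (s : Finset ι)
    (Φ : ι → (Fin n → Fin m × Fin m) → (Fin n → Fin m × Fin m) → ℝ) :
    av n m (fun cx cy => ∑ i ∈ s, Φ i cx cy) = ∑ i ∈ s, av n m (Φ i) := by
  unfold av
  rw [← sum_div]
  congr 1
  calc ∑ cx, ∑ cy, ∑ i ∈ s, Φ i cx cy = ∑ cx, ∑ i ∈ s, ∑ cy, Φ i cx cy :=
        sum_congr rfl fun cx _ => sum_comm
    _ = _ := sum_comm

theorem SUP_av_mul {n m : ℕ} (c : ℝ)
    (Φ : (Fin n → Fin m × Fin m) → (Fin n → Fin m × Fin m) → ℝ) :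
    av n m (fun cx cy => c * Φ cx cy) = c * av n m Φ := by
  unfold av
  rw [← mul_div_assoc]
  congr 1
  simp only [mul_sum]

theorem SUP_cnt {n m : ℕ} (c : Fin n → Fin m × Fin m) {i j : ℕ} (h : m ≤ i ∨ m ≤ j) :
    Pool.UMC.cnt c i j = 0 := by
  unfold Pool.UMC.cnt
  rw [card_eq_zero, filter_eq_empty_iff]
  rintro l - ⟨h1, h2⟩
  have h3 := (c l).1.2
  have h4 := (c l).2.2
  omega

theorem SUP_pr {m a b : ℕ} (ha : a < m) (hb : b < m) (w f : ℕ → ℕ → ℝ) :
    pr m w (fun i j => if i = a ∧ j = b then f i j else 0) = w a b * f a b := by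
  unfold pr
  rw [sum_eq_single a]
  · rw [sum_eq_single b]
    · simp
    · intro j _ hj
      simp [hj]
    · intro hb'
      exact absurd (mem_range.mpr hb) hb'
  · intro i _ hi
    refine sum_eq_zero fun j _ => ?_
    simp [hi]
  · intro ha'
    exact absurd (mem_range.mpr ha) ha'

theorem sSup (hExp : SExp) : SSup := by
  intro n k K hK hK1
  set m : ℕ := 2 ^ k with hm
  have hm1 : 1 ≤ m := Nat.one_le_two_pow
  have hm2 : ((m : ℕ) : ℝ) ^ 2 = 4 ^ k := by
    rw [hm]
    push_cast
    rw [← pow_mul, mul_comm, pow_mul]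
    norm_num
  have hK0 : 0 < K := by linarith
  have hsK : 0 < √K := Real.sqrt_pos.mpr hK0
  have hKK : √K * √K = K := Real.mul_self_sqrt hK0.le
  -- one cell
  have cell : ∀ (ε : ℝ), ε ^ 2 = 1 → ∀ a < m, ∀ b < m,
      av n m (fun cx cy => Real.exp (ε * wc cx cy a b / 4)) ≤ Real.exp (K / 8) := by
    intro ε hε a ha b hb
    have hεa : |ε| = 1 := by
      have : |ε| ^ 2 = 1 := by rw [sq_abs, hε]
      nlinarith [abs_nonneg ε]
    have h1 := hExp n m K hm1 (by rw [hm2]; exact hK) hK0
      (fun i j => if i = a ∧ j = b then ε * (√K / 4) else 0) (fun i j => by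
        split_ifs
        · rw [abs_mul, hεa, one_mul, abs_of_pos (by positivity)]
          linarith
        · rw [abs_zero]
          exact hsK.le)
    have h2 : pr m (fun i j => if i = a ∧ j = b then ε * (√K / 4) else 0)
        (fun i j => if i = a ∧ j = b then ε * (√K / 4) else 0) = K / 16 := by
      rw [SUP_pr ha hb _ (fun _ _ => ε * (√K / 4)), if_pos ⟨rfl, rfl⟩]
      calc ε * (√K / 4) * (ε * (√K / 4)) = ε ^ 2 * (√K * √K) / 16 := by ring
        _ = K / 16 := by rw [hε, hKK, one_mul]
    rw [h2] at h1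
    refine le_trans (le_of_eq ?_) (h1.trans (le_of_eq ?_))
    · congr 1
      ext cx cy
      rw [SUP_pr ha hb _ (fun _ _ => ε * (√K / 4))]
      congr 1
      field_simp
    · congr 1
      ring
  have hmark := SUP_markov (n := n) (m := m)
    (E := fun cx cy => ¬ ∀ i j, |wc cx cy i j| ≤ K)
    (Φ := fun cx cy => ∑ a ∈ range m, ∑ b ∈ range m,
      (Real.exp (-(K / 4)) * Real.exp (1 * wc cx cy a b / 4) +
        Real.exp (-(K / 4)) * Real.exp ((-1) * wc cx cy a b / 4)))
    (fun cx cy => sum_nonneg fun a _ => sum_nonneg fun b _ => by positivity)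
    (fun cx cy hE => by
      push Not at hE
      obtain ⟨i, j, hij⟩ := hE
      have hlt : i < m ∧ j < m := by
        by_contra hcon
        have h3 : m ≤ i ∨ m ≤ j := by omega
        have h4 : wc cx cy i j = 0 := by
          unfold wc
          rw [SUP_cnt cx h3, SUP_cnt cy h3]
          simp
        rw [h4, abs_zero] at hij
        linarith
      have h5 : (1:ℝ) ≤ Real.exp (-(K / 4)) * Real.exp (1 * wc cx cy i j / 4) +
          Real.exp (-(K / 4)) * Real.exp ((-1) * wc cx cy i j / 4) := by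
        rw [← Real.exp_add, ← Real.exp_add]
        rcases le_total 0 (wc cx cy i j) with hs | hs
        · rw [abs_of_nonneg hs] at hij
          have h6 := Real.one_le_exp (x := -(K / 4) + 1 * wc cx cy i j / 4) (by linarith)
          have h7 := Real.exp_pos (-(K / 4) + (-1) * wc cx cy i j / 4)
          linarith
        · rw [abs_of_nonpos hs] at hij
          have h6 := Real.one_le_exp (x := -(K / 4) + (-1) * wc cx cy i j / 4) (by linarith)
          have h7 := Real.exp_pos (-(K / 4) + 1 * wc cx cy i j / 4)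
          linarith
      refine h5.trans ?_
      have h8 := single_le_sum (f := fun b => Real.exp (-(K / 4)) * Real.exp (1 * wc cx cy i b / 4) +
          Real.exp (-(K / 4)) * Real.exp ((-1) * wc cx cy i b / 4)) (s := range m)
          (fun b _ => by positivity) (mem_range.mpr hlt.2)
      have h9 := single_le_sum (f := fun a => ∑ b ∈ range m,
          (Real.exp (-(K / 4)) * Real.exp (1 * wc cx cy a b / 4) +
          Real.exp (-(K / 4)) * Real.exp ((-1) * wc cx cy a b / 4))) (s := range m)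
          (fun a _ => sum_nonneg fun b _ => by positivity) (mem_range.mpr hlt.1)
      exact h8.trans h9)
  refine hmark.trans ?_
  rw [SUP_av_sum]
  have hterm : ∀ a ∈ range m, av n m (fun cx cy => ∑ b ∈ range m,
      (Real.exp (-(K / 4)) * Real.exp (1 * wc cx cy a b / 4) +
        Real.exp (-(K / 4)) * Real.exp ((-1) * wc cx cy a b / 4))) ≤
      ∑ b ∈ range m, 2 * Real.exp (-(K / 8)) := by
    intro a ha
    rw [SUP_av_sum]
    refine sum_le_sum fun b hb => ?_
    rw [SUP_av_add, SUP_av_mul, SUP_av_mul]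
    have h1 := cell 1 (by norm_num) a (mem_range.mp ha) b (mem_range.mp hb)
    have h2 := cell (-1) (by norm_num) a (mem_range.mp ha) b (mem_range.mp hb)
    have h3 : Real.exp (-(K / 4)) * Real.exp (K / 8) = Real.exp (-(K / 8)) := by
      rw [← Real.exp_add]
      congr 1
      ring
    have h4 := mul_le_mul_of_nonneg_left h1 (Real.exp_pos (-(K / 4))).le
    have h5 := mul_le_mul_of_nonneg_left h2 (Real.exp_pos (-(K / 4))).le
    rw [h3] at h4 h5
    linarith
  refine (sum_le_sum hterm).trans (le_of_eq ?_)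
  rw [sum_const, sum_const, card_range, nsmul_eq_mul, nsmul_eq_mul, ← hm2]
  ring

end Pool.UMD
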